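import Mathlib

set_option autoImplicit false

namespace Pool.Agent.Results.MP_7100ec_nt.Counter

/-- The Gauss map. -/
noncomputable def gauss (y : ℝ) : ℝ := Int.fract y⁻¹

/-- The n-th partial quotient (n at least 1) of y = [a_1, a_2, ...]. -/
noncomputable def a (n : ℕ) (y : ℝ) : ℤ := ⌊(gauss^[n - 1] y)⁻¹⌋

/-- y lies in (0, 1] and has at least n partial quotients. -/
def Defined (n : ℕ) (y : ℝ) : Prop := 0 < y ∧ y ≤ 1 ∧ ∀ j < n, gauss^[j] y ≠ 0

lemma fl (p q : ℝ) (m : ℤ) (h1 : (m : ℝ) ≤ (p / q)⁻¹) (h2 : (p / q)⁻¹ < m + 1) :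
    ⌊(p / q)⁻¹⌋ = m := Int.floor_eq_iff.2 ⟨h1, h2⟩

lemma g1 : gauss (1873 / 11310) = 72 / 1873 := by
  rw [gauss, Int.fract, fl 1873 11310 6 (by norm_num) (by norm_num)]; norm_num

lemma g2 : gauss (2046 / 61451) = 71 / 2046 := by
  rw [gauss, Int.fract, fl 2046 61451 30 (by norm_num) (by norm_num)]; norm_num

/-- For x = 75 / 377 one has c_1 = 6, b_1 = 30, c_2 = 27, b_2 = 28, so b_2 < b_1. -/
theorem result :
    ∃ (x : ℝ) (c₁ b₁ c₂ b₂ : ℤ),
      Defined 1 x ∧ c₁ = a 1 x + 1 ∧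
      Defined 1 (x - 1 / c₁) ∧ b₁ = a 1 (x - 1 / c₁) ∧
      Defined 2 (x - 1 / b₁) ∧ c₂ = a 2 (x - 1 / b₁) + 1 ∧
      Defined 2 (x - 1 / (c₁ + 1 / c₂)) ∧ b₂ = a 2 (x - 1 / (c₁ + 1 / c₂)) ∧
      b₂ < b₁ := by
  have e1 : (75 / 377 : ℝ) - 1 / ((6 : ℤ) : ℝ) = 73 / 2262 := by norm_num
  have e2 : (75 / 377 : ℝ) - 1 / ((30 : ℤ) : ℝ) = 1873 / 11310 := by norm_num
  have e3 : (75 / 377 : ℝ) - 1 / (((6 : ℤ) : ℝ) + 1 / ((27 : ℤ) : ℝ)) = 2046 / 61451 := by norm_num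
  refine ⟨75 / 377, 6, 30, 27, 28, ?_, ?_, ?_, ?_, ?_, ?_, ?_, ?_, by norm_num⟩
  · refine ⟨by norm_num, by norm_num, fun j hj => ?_⟩
    obtain rfl : j = 0 := by omega
    norm_num
  · simp only [a, Nat.sub_self, Function.iterate_zero, id]
    rw [fl 75 377 5 (by norm_num) (by norm_num)]; norm_num
  · rw [e1]
    refine ⟨by norm_num, by norm_num, fun j hj => ?_⟩
    obtain rfl : j = 0 := by omega
    norm_num
  · rw [e1]
    simp only [a, Nat.sub_self, Function.iterate_zero, id]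
    rw [fl 73 2262 30 (by norm_num) (by norm_num)]
  · rw [e2]
    refine ⟨by norm_num, by norm_num, fun j hj => ?_⟩
    obtain rfl | rfl : j = 0 ∨ j = 1 := by omega
    · norm_num
    · rw [Function.iterate_one, g1]; norm_num
  · rw [e2]
    simp only [a, Nat.add_one_sub_one, Function.iterate_one, g1]
    rw [fl 72 1873 26 (by norm_num) (by norm_num)]; norm_num
  · rw [e3]
    refine ⟨by norm_num, by norm_num, fun j hj => ?_⟩
    obtain rfl | rfl : j = 0 ∨ j = 1 := by omega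
    · norm_num
    · rw [Function.iterate_one, g2]; norm_num
  · rw [e3]
    simp only [a, Nat.add_one_sub_one, Function.iterate_one, g2]
    rw [fl 71 2046 28 (by norm_num) (by norm_num)]

end Pool.Agent.Results.MP_7100ec_nt.Counter
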